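import Pool.Agent.helper20.LB.M
import Pool.Agent.helper77.LB.W

/-!
# `MDL(n)` grows linearly

The minimum number `MDL n` of distinct abelian squares in a binary word of length `n` satisfies
`⌊n/4⌋ ≤ 50000 * MDL n`; together with the known upper bound `MDL n ≤ ⌊n/4⌋` this determines the
order of growth of `MDL n`.
-/

namespace Pool.Agent.Results.MP_c8175e_co.LinearLowerBound

/-- The number of distinct abelian squares (nonempty factors `x ++ y`, `y` a rearrangement of `x`)
of the binary word `w`, exactly as in the frozen statement of the problem. -/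
noncomputable def numSq (w : List Bool) : ℕ :=
  Set.ncard {u : List Bool | List.IsInfix u w ∧
    ∃ x y : List Bool, x ≠ [] ∧ List.Perm x y ∧ u = x ++ y}

/-- `MDL n`: the minimum number of distinct abelian squares over all binary words of length `n`. -/
noncomputable def MDL (n : ℕ) : ℕ :=
  sInf {m : ℕ | ∃ w : List Bool, w.length = n ∧ numSq w = m}

theorem fin_set (w : List Bool) : {u : List Bool | List.IsInfix u w ∧
    ∃ x y : List Bool, x ≠ [] ∧ List.Perm x y ∧ u = x ++ y}.Finite := by
  apply Set.Finite.subset (s := {u : List Bool | u ∈ w.sublists})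
  · exact List.finite_toSet w.sublists
  · intro u hu
    have : u.Sublist w := hu.1.sublist
    simpa [List.mem_sublists] using this

/-- every binary word of length 4 has an abelian square, hence so has every longer word -/
theorem one_le (w : List Bool) (h : 4 ≤ w.length) : 1 ≤ numSq w := by
  obtain ⟨a, b, c, d, t, rfl⟩ : ∃ a b c d t, w = a :: b :: c :: d :: t := by
    match w, h with
    | a :: b :: c :: d :: t, _ => exact ⟨a, b, c, d, t, rfl⟩
  have hne : {u : List Bool | List.IsInfix u (a :: b :: c :: d :: t) ∧
      ∃ x y : List Bool, x ≠ [] ∧ List.Perm x y ∧ u = x ++ y}.Nonempty := by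
    by_cases h1 : a = b
    · subst h1
      exact ⟨[a, a], ⟨[], c :: d :: t, by simp⟩, [a], [a], by simp, List.Perm.refl _, rfl⟩
    by_cases h2 : b = c
    · subst h2
      exact ⟨[b, b], ⟨[a], d :: t, by simp⟩, [b], [b], by simp, List.Perm.refl _, rfl⟩
    by_cases h3 : c = d
    · subst h3
      exact ⟨[c, c], ⟨[a, b], t, by simp⟩, [c], [c], by simp, List.Perm.refl _, rfl⟩
    have e1 : c = a := by
      revert h1 h2; cases a <;> cases b <;> cases c <;> simp
    have e2 : d = b := by
      revert h2 h3; cases b <;> cases c <;> cases d <;> simp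
    subst e1; subst e2
    exact ⟨[c, d, c, d], ⟨[], t, by simp⟩, [c, d], [c, d], by simp, List.Perm.refl _, rfl⟩
  unfold numSq
  exact Nat.one_le_iff_ne_zero.2 (fun h0 => by
    rw [Set.ncard_eq_zero (fin_set _)] at h0
    rw [h0] at hne
    exact Set.not_nonempty_empty hne)

/-- `MDL(n) ≥ ⌊n/4⌋ / 50000` for every `n`. -/
theorem result (n : ℕ) : n / 4 ≤ 50000 * MDL n := by
  have hne : {m : ℕ | ∃ w : List Bool, w.length = n ∧ numSq w = m}.Nonempty :=
    ⟨numSq (List.replicate n true), List.replicate n true, by simp, rfl⟩
  obtain ⟨w, hw, hm⟩ := Nat.sInf_mem hne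
  change numSq w = MDL n at hm
  rw [← hm]
  have hb := Pool.Agent.helper20.LB.word_bound_of
    (fun _ hf _ _ hE => Pool.Agent.helper20.LB.main_abs hf hE) w
  change w.length ≤ 100000 * (numSq w + 1) at hb
  rcases lt_or_ge n 4 with h4 | h4
  · have : n / 4 = 0 := by omega
    omega
  · have h1 := one_le w (by omega)
    omega

end Pool.Agent.Results.MP_c8175e_co.LinearLowerBound
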