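import Pool.Agent.helper97.AS.Fin

/-!
# Distinct abelian squares in binary words in which a long factor is repeated

Both parts of Q1 (the bound `⌊n/4⌋` and the uniqueness of the extremal words of length `4k+3`) for all
binary words of length `n` in which some factor of length at least `(n-1)/2` occurs twice.
-/

set_option autoImplicit false

namespace Pool.Agent.Results.MP_c8175e_co.RepeatedFactor

/-- The number of distinct abelian squares (nonempty factors `x ++ y`, `y` a rearrangement of `x`)
of the binary word `w`, exactly as in the frozen statement of the problem. -/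
noncomputable def numSq (w : List Bool) : ℕ :=
  Set.ncard {u : List Bool | List.IsInfix u w ∧
    ∃ x y : List Bool, x ≠ [] ∧ List.Perm x y ∧ u = x ++ y}

/-- Some factor `u` of length `m` occurs at two different positions of `w` (after the prefixes `x`
and `x'`); the two occurrences may overlap. -/
def Repeats (w : List Bool) (m : ℕ) : Prop :=
  ∃ u x y x' y' : List Bool, u.length = m ∧ w = x ++ u ++ y ∧ w = x' ++ u ++ y' ∧ x ≠ x'

theorem lt_or_lt {w u x y x' y' : List Bool} (h : w = x ++ u ++ y) (h' : w = x' ++ u ++ y')
    (hne : x ≠ x') : x.length < x'.length ∨ x'.length < x.length := by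
  rcases lt_trichotomy x.length x'.length with h1 | h1 | h1
  · exact Or.inl h1
  · exfalso
    apply hne
    have h2 : x ++ (u ++ y) = x' ++ (u ++ y') := by
      rw [← List.append_assoc, ← List.append_assoc, ← h, ← h']
    exact (List.append_inj h2 h1).1
  · exact Or.inr h1

/-- (1) a repeated factor has length at most `2 E + 2`; (2), (3) both parts of Q1 for all words in which
a factor of length at least `(n-1)/2` occurs at two different positions. -/
theorem result :
    (∀ (w : List Bool) (m : ℕ), Repeats w m → m ≤ 2 * numSq w + 2) ∧
    (∀ (w : List Bool) (m : ℕ), Repeats w m → w.length ≤ 2 * m + 1 → w.length / 4 ≤ numSq w) ∧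
    (∀ (w : List Bool) (m k : ℕ), Repeats w m → w.length ≤ 2 * m + 1 → w.length = 4 * k + 3 →
      numSq w = k →
      (w = List.replicate (2 * k + 1) false ++ [true] ++ List.replicate (2 * k + 1) false ∨
       w = List.replicate (2 * k + 1) true ++ [false] ++ List.replicate (2 * k + 1) true)) := by
  refine ⟨?_, ?_, ?_⟩
  · rintro w m ⟨u, x, y, x', y', rfl, h, h', hne⟩
    rcases lt_or_lt h h' hne with hlt | hlt
    · exact Pool.Agent.helper97.AS.general h h' hlt
    · exact Pool.Agent.helper97.AS.general h' h hlt
  · rintro w m ⟨u, x, y, x', y', rfl, h, h', hne⟩ hn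
    rcases lt_or_lt h h' hne with hlt | hlt
    · exact (Pool.Agent.helper97.AS.main h h' hlt hn).1
    · exact (Pool.Agent.helper97.AS.main h' h hlt hn).1
  · rintro w m k ⟨u, x, y, x', y', rfl, h, h', hne⟩ hn hk hE
    rcases lt_or_lt h h' hne with hlt | hlt
    · exact (Pool.Agent.helper97.AS.main h h' hlt hn).2 k hk hE
    · exact (Pool.Agent.helper97.AS.main h' h hlt hn).2 k hk hE

end Pool.Agent.Results.MP_c8175e_co.RepeatedFactor
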